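import Mathlib
import Pool.Agent.H85.SC.Targets

/-!
# The exact growth threshold for the synthesis property: definitions and targets

`d` is nondecreasing and positive. If `∑ 1 / d(n)² < ∞`, there is an equivalence relation with
finite classes, `||m| - |n|| ≤ d (min |m| |n|)` on the classes, and without the synthesis property.
-/

namespace Pool.Agent.H93.ET

open MeasureTheory AddCircle Finset Pool.Agent.H87.Synth Pool.Agent.H85.SC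

/-- `cos (t x)` -/
noncomputable def cs (t : ℤ) (x : Circ) : ℝ := ((fourier t x : ℂ)).re

/-- a primitive of the arc tangent -/
noncomputable def Phi (u : ℝ) : ℝ := u * Real.arctan u - Real.log (1 + u ^ 2) / 2

/-- length of the window of gadget `k` -/
noncomputable def LL (k : ℕ) : ℕ := (6 * PP (2 * k)) ^ 2

/-- number of absorbing points of gadget `k` with a given sign -/
noncomputable def nc (k : ℕ) : ℕ :=
  LL k / (6 * PP (2 * k)) *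
    ((pr (2 * k) 0 - 1) / 2 * ((pr (2 * k) 1 - 1) / 2) * ((pr (2 * k) 2 - 1) / 2))

/-- product and sum of the three characters of gadget `k` -/
noncomputable def cp (k : ℕ) (z : ℤ) : ℤ := chi (2 * k) 0 z * chi (2 * k) 1 z * chi (2 * k) 2 z
noncomputable def cm (k : ℕ) (z : ℤ) : ℤ := chi (2 * k) 0 z + chi (2 * k) 1 z + chi (2 * k) 2 z

/-- the window of a gadget at the position `Z` -/
noncomputable def GW (k : ℕ) (Z : ℤ) : Finset ℤ := (Ico Z (Z + LL k)).filter fun z => z % 6 = 4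

/-- absorbing points of the gadget with sign `s` -/
noncomputable def GA (k : ℕ) (Z s : ℤ) : Finset ℤ := (GW k Z).filter fun z => cm k z = 3 * s

/-- emitting points of the gadget with sign `s` -/
noncomputable def GE (k : ℕ) (Z s : ℤ) : Finset ℤ :=
  (GW k Z).filter fun z => cm k z = s ∧ cp k z = -s

/-- sign and parity of a Boolean -/
def sg (s : Bool) : ℤ := if s then 1 else -1
def jj (s : Bool) : ℤ := if s then 0 else 1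

/-- the points of level `k` -/
def pt (k : ℕ) (t i : ℤ) (s : Bool) : ℤ := 12 * t + 6 * i + 2 * ((k : ℤ) % 2) + jj s

open Classical in
/-- index of the emitting and of the absorbing point -/
noncomputable def iE (x : ℝ) : ℤ := if 0 < x then 0 else 1
open Classical in
noncomputable def iA (x : ℝ) : ℤ := if 0 < x then 1 else 0

/-- the data of the construction -/
structure Dat (d : ℕ → ℝ) where
  b : ℕ → ℕ
  mu : ℕ → ℕ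
  g : ℕ → ℤ → ℝ
  T : ℕ → ℕ → Finset ℤ
  hb : StrictMono b
  hmu : StrictMono mu
  p0 : 12 ≤ b (mu 0)
  grow : ∀ k, 20 * b (mu k) ≤ b (mu (k + 1))
  len : ∀ m, 12 * ((b (m + 2) : ℝ) - b m) ≤ d (b m)
  gad : ∀ k, (LL k : ℝ) + 12 * ((b (mu (k + 1)) : ℝ) - b (mu (k + 1) - 1)) ≤
    d (b (mu (k + 1) - 1))
  gadp : ∀ k, LL k ≤ b (mu (k + 1))
  gsupp : ∀ k t, g k t ≠ 0 → (b (mu k) : ℤ) ≤ 2 * |t| ∧ |t| < 2 * (b (mu (k + 1)) : ℤ)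
  gnorm : ∀ k (w : ℂ), ‖w‖ = 1 →
    ‖∑ t ∈ Ioo (-(2 * (b (mu (k + 1)) : ℤ))) (2 * (b (mu (k + 1)) : ℤ)), (g k t : ℂ) * w ^ t‖ ≤
      (1 / 2) ^ k
  hT : ∀ k m, mu k ≤ m → m < mu (k + 1) → T k m ⊆ Ico (b m : ℤ) (b (m + 1)) ∧
    (∀ t ∈ T k m, g k t ≠ 0) ∧ ∑ t ∈ T k m, |g k t| = 3 ^ k

namespace Dat

variable {d : ℕ → ℝ} (D : Dat d)

/-- position of gadget `k` -/
def Z (k : ℕ) : ℤ := 12 * (D.b (D.mu (k + 1)) : ℤ)

/-- absorbing and emitting points of window `m` of level `k` -/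
noncomputable def AB (k m : ℕ) (s : Bool) : Finset ℤ :=
  (D.T k m).image fun t => pt k t (iA (D.g k t)) s
noncomputable def EB (k m : ℕ) (s : Bool) : Finset ℤ :=
  (D.T k m).image fun t => pt k t (iE (D.g k t)) s

/-- emitting points in front of level `k` -/
noncomputable def EP (k : ℕ) (s : Bool) : Finset ℤ :=
  if k = 0 then ∅ else GE (k - 1) (D.Z (k - 1)) (sg s)

end Dat

/-- index set of the classes -/
inductive Cl : Type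
  | blk (k m : ℕ) (s : Bool) : Cl
  | gad (k : ℕ) (s : Bool) : Cl
  | par (k : ℕ) (t : ℤ) (s : Bool) : Cl

open Classical in
/-- the classes -/
noncomputable def cl {d : ℕ → ℝ} (D : Dat d) : Cl → Finset ℤ
  | Cl.blk k m s => if D.mu k ≤ m ∧ m < D.mu (k + 1) then
      D.AB k m s ∪ (if m = D.mu k then D.EP k s else D.EB k (m - 1) s) else ∅
  | Cl.gad k s => GA k (D.Z k) (sg s) ∪ D.EB k (D.mu (k + 1) - 1) s
  | Cl.par k t s => if D.g k t ≠ 0 ∧ ∀ m, D.mu k ≤ m → m < D.mu (k + 1) → t ∉ D.T k m then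
      {pt k t 0 s, pt k t 1 s} else ∅

/-- the coefficients of the function at the points of the construction -/
def FV {d : ℕ → ℝ} (D : Dat d) (f : L1) : Prop :=
  (∀ k t i s, D.g k t ≠ 0 → (i = 0 ∨ i = 1) → coeff f (pt k t i s) = (sg s : ℂ) * (1 / 3) ^ k) ∧
  ∀ k, ∀ z ∈ GW k (D.Z k), coeff f z = (cm k z : ℂ) * (1 / 3) ^ (k + 1)

/-- the values of the functional at the exponentials -/
def GV {d : ℕ → ℝ} (D : Dat d) (Λ : L1 →L[ℂ] ℂ) : Prop :=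
  (∀ k t i s, D.g k t ≠ 0 → (i = 0 ∨ i = 1) →
    ¬ (k = 0 ∧ t ∈ D.T 0 (D.mu 0) ∧ i = iA (D.g 0 t)) →
    Λ (ex (pt k t i s)) = (1 - 2 * (i : ℂ)) * (sg s : ℂ) * (D.g k t : ℂ)) ∧
  (∀ t s, t ∈ D.T 0 (D.mu 0) → Λ (ex (pt 0 t (iA (D.g 0 t)) s)) = 0) ∧
  (∀ k, ∀ z ∈ GW k (D.Z k), Λ (ex z) = -((3 : ℂ) ^ k / nc k) * (cp k z : ℂ)) ∧
  ∀ z, (∀ k t i s, D.g k t ≠ 0 → (i = 0 ∨ i = 1) → z ≠ pt k t i s) →
    (∀ k, z ∉ GW k (D.Z k)) → Λ (ex z) = 0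

/-! ## A. A lemma of Kashin, Nazarov and de Leeuw, Katznelson, Kahane -/

/-- Taylor formula for `Phi` -/
def T_PHI : Prop := ∀ u k : ℝ,
  Phi u - k * Real.arctan u + k ^ 2 / 2 / (1 + 2 * u ^ 2 + 2 * k ^ 2) ≤ Phi (u - k)

/-- the cosines -/
def T_ORT : Prop :=
  (∀ t : ℤ, Continuous (cs t)) ∧ (∀ t x, |cs t x| ≤ 1) ∧
  ∀ s t : ℤ, 0 < s → 0 < t →
    ∫ x, cs s x * cs t x ∂(haarAddCircle : Measure Circ) = if s = t then 1 / 2 else 0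

/-- a continuous function with large coefficients -/
def T_KKL : Prop := ∀ (Q : Finset ℤ) (β : ℤ → ℝ) (B : ℝ), (∀ t ∈ Q, 0 < t) →
  (∀ t ∈ Q, 0 ≤ β t) → 0 < B → ∑ t ∈ Q, β t ^ 2 ≤ B ^ 2 →
  ∃ H : Circ → ℝ, Continuous H ∧ (∀ x, |H x| ≤ 38 * B) ∧
    (∀ t ∈ Q, β t ≤ |∫ x, H x * cs t x ∂haarAddCircle|) ∧
    ∑ t ∈ Q, (∫ x, H x * cs t x ∂haarAddCircle) ^ 2 ≤ (38 * B) ^ 2

/-- cut-off of the coefficients of a bounded function -/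
def T_CUT : Prop := ∀ (A B : ℕ), 0 < A → A < B → A + B ≤ 3 * (B - A) →
  ∀ (H : Circ → ℝ) (M : ℝ), Continuous H → (∀ x, |H x| ≤ M) → ∀ N : ℕ, B ≤ N →
  ∀ w : ℂ, ‖w‖ = 1 →
    ‖∑ t ∈ Ioo (-(N : ℤ)) N,
      ((trap A B t * ∫ x, H x * cs t x ∂haarAddCircle : ℝ) : ℂ) * w ^ t‖ ≤ 3 * M

/-- the segment lemma -/
def T_SEG : Prop := ∀ b : ℕ → ℕ, StrictMono b →
  Summable (fun m => 1 / ((b (m + 1) : ℝ) - b m)) → ∀ S ε : ℝ, 0 < S → 0 < ε →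
  ∃ M, ∀ m0 m1, M ≤ m0 → m0 < m1 → ∃ g : ℤ → ℝ,
    (∀ t, g t ≠ 0 → (b m0 : ℤ) ≤ 2 * |t| ∧ |t| < 2 * (b m1 : ℤ)) ∧
    (∀ w : ℂ, ‖w‖ = 1 →
      ‖∑ t ∈ Ioo (-(2 * (b m1 : ℤ))) (2 * (b m1 : ℤ)), (g t : ℂ) * w ^ t‖ ≤ ε) ∧
    ∀ m, m0 ≤ m → m < m1 → ∃ T : Finset ℤ, T ⊆ Ico (b m : ℤ) (b (m + 1)) ∧
      (∀ t ∈ T, g t ≠ 0) ∧ ∑ t ∈ T, |g t| = S

/-- the windows -/
def T_BRK : Prop := ∀ d : ℕ → ℝ, (∀ n, 0 < d n) → Monotone d →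
  Summable (fun n => 1 / d n ^ 2) → ∃ b : ℕ → ℕ, StrictMono b ∧
    (∀ m, 36 * ((b (m + 1) : ℝ) - b m) ≤ d (b m)) ∧
    (∀ m, b (m + 2) - b (m + 1) ≤ 2 * (b (m + 1) - b m)) ∧
    Summable (fun m => 1 / ((b (m + 1) : ℝ) - b m))

/-- existence of the data -/
def T_DAT : Prop := ∀ d : ℕ → ℝ, (∀ n, 0 < d n) → Monotone d →
  Summable (fun n => 1 / d n ^ 2) → Nonempty (Dat d)

/-! ## B. The gadgets -/

/-- counting -/
def T_GCT : Prop := ∀ (k : ℕ) (Z : ℤ), 0 < nc k ∧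
  (∀ s : ℤ, s = 1 ∨ s = -1 → (GA k Z s).card = nc k ∧ (GE k Z s).card = 3 * nc k) ∧
  (∀ z, cp k z ≠ 0 → ∃ s : ℤ, (s = 1 ∨ s = -1) ∧
    ((cm k z = 3 * s ∧ cp k z = s) ∨ (cm k z = s ∧ cp k z = -s))) ∧
  (∀ (s z : ℤ), s = 1 ∨ s = -1 → cm k z = 3 * s → cp k z = s) ∧
  ∑ z ∈ GW k Z, cp k z * cm k z = 0

/-- the weights of a gadget are small as a functional -/
def T_GSP : Prop := ∀ (k : ℕ) (Z : ℤ) (w : ℂ), ‖w‖ = 1 →
  ‖∑ z ∈ GW k Z, -((3 : ℂ) ^ k / nc k) * (cp k z : ℂ) * w ^ z‖ ≤ 100 * (1 / 2) ^ k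

/-! ## C. The construction -/

/-- sizes and uniqueness of the points -/
def T_PNT : Prop := ∀ (d : ℕ → ℝ) (D : Dat d),
  (∀ k t i s, D.g k t ≠ 0 → (i = 0 ∨ i = 1) → 5 * (D.b (D.mu k) : ℤ) ≤ |pt k t i s| ∧
    |pt k t i s| ≤ 36 * (D.b (D.mu (k + 1)) : ℤ)) ∧
  (∀ k k' t t' i i' s s', D.g k t ≠ 0 → D.g k' t' ≠ 0 → (i = 0 ∨ i = 1) → (i' = 0 ∨ i' = 1) →
    pt k t i s = pt k' t' i' s' → k = k' ∧ t = t' ∧ i = i' ∧ s = s') ∧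
  (∀ k k' t i s z, (i = 0 ∨ i = 1) → z ∈ GW k' (D.Z k') → z ≠ pt k t i s) ∧
  (∀ k k' z, z ∈ GW k (D.Z k) → z ∈ GW k' (D.Z k') → k = k') ∧
  (∀ k m m' t, D.mu k ≤ m → m < D.mu (k + 1) → D.mu k ≤ m' → m' < D.mu (k + 1) →
    t ∈ D.T k m → t ∈ D.T k m' → m = m') ∧
  ∀ k, ∀ z ∈ GW k (D.Z k), 12 * (D.b (D.mu (k + 1)) : ℤ) ≤ z ∧
    z < 12 * (D.b (D.mu (k + 1)) : ℤ) + LL k

/-- the function -/
def T_PTF : Prop := ∀ (d : ℕ → ℝ) (D : Dat d), ∃ f : L1, FV D f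

/-- series of functionals -/
def T_SER : Prop := ∀ (A : ℕ → Finset ℤ) (G : ℕ → ℤ → ℂ) (e : ℕ → ℝ), Summable e →
  (∀ k (w : ℂ), ‖w‖ = 1 → ‖∑ z ∈ A k, G k z * w ^ z‖ ≤ e k) →
  ∃ Λ : L1 →L[ℂ] ℂ, ∀ f : L1, HasSum (fun k => ∑ z ∈ A k, G k z * coeff f z) (Λ f)

/-- the functional -/
def T_PTG : Prop := ∀ (d : ℕ → ℝ) (D : Dat d),
  ∃ Λ : L1 →L[ℂ] ℂ, GV D Λ ∧ ∀ f : L1, FV D f → Λ f = 2

/-- the classes are disjoint, and so are their two parts -/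
def T_DSJ : Prop := ∀ (d : ℕ → ℝ) (D : Dat d),
  (∀ c c' z, z ∈ cl D c → z ∈ cl D c' → c = c') ∧
  (∀ k m m' s, D.mu k ≤ m → m < D.mu (k + 1) → D.mu k ≤ m' → m' < D.mu (k + 1) →
    Disjoint (D.AB k m s) (D.EB k m' s)) ∧
  (∀ k m s, D.mu k ≤ m → m < D.mu (k + 1) → Disjoint (D.AB k m s) (D.EP k s)) ∧
  (∀ k m s, D.mu k ≤ m → m < D.mu (k + 1) →
    Disjoint (GA k (D.Z k) (sg s)) (D.EB k m s))

/-- the function is constant on the classes -/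
def T_FCO : Prop := ∀ (d : ℕ → ℝ) (D : Dat d) (f : L1), FV D f →
  ∀ c, ∀ z ∈ cl D c, ∀ z' ∈ cl D c, coeff f z = coeff f z'

/-- the functional vanishes on the idempotents of the classes and outside of the classes -/
def T_SUM : Prop := ∀ (d : ℕ → ℝ) (D : Dat d) (Λ : L1 →L[ℂ] ℂ), GV D Λ →
  (∀ c, ∑ z ∈ cl D c, Λ (ex z) = 0) ∧ ∀ z, (∀ c, z ∉ cl D c) → Λ (ex z) = 0

/-- the size of the classes -/
def T_DIA : Prop := ∀ (d : ℕ → ℝ), Monotone d → ∀ (D : Dat d),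
  ∀ c, ∀ z ∈ cl D c, ∀ z' ∈ cl D c,
    |(z.natAbs : ℝ) - z'.natAbs| ≤ d (min z.natAbs z'.natAbs)

/-- the criterion -/
def T_CRI : Prop := ∀ (ι : Type) (cl : ι → Finset ℤ),
  (∀ c c' z, z ∈ cl c → z ∈ cl c' → c = c') → ∀ (f : L1) (Λ : L1 →L[ℂ] ℂ),
  (∀ c, ∀ z ∈ cl c, ∀ z' ∈ cl c, coeff f z = coeff f z') →
  (∀ c, ∑ z ∈ cl c, Λ (ex z) = 0) → (∀ z, (∀ c, z ∉ cl c) → Λ (ex z) = 0) → Λ f ≠ 0 →
  ∃ r : Setoid ℤ, (∀ m n, r m n ↔ m = n ∨ ∃ c, m ∈ cl c ∧ n ∈ cl c) ∧ ¬ HasSynthesis r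

/-- the negative half -/
def T_NGT : Prop := ∀ d : ℕ → ℝ, (∀ n, 0 < d n) → Monotone d →
  Summable (fun n => 1 / d n ^ 2) → ∃ r : Setoid ℤ, (∀ n, {k | r n k}.Finite) ∧
    (∀ m n, r m n → |(m.natAbs : ℝ) - n.natAbs| ≤ d (min m.natAbs n.natAbs)) ∧
    ¬ HasSynthesis r

/-- the threshold -/
def T_ALL : Prop := ∀ d : ℕ → ℝ, (∀ n, 0 < d n) → Monotone d →
  ((∀ r : Setoid ℤ, (∀ m n, {k | r m k}.Finite → r m n →
      |(m.natAbs : ℝ) - n.natAbs| ≤ d (min m.natAbs n.natAbs)) → HasSynthesis r) ↔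
    ¬ Summable fun n => 1 / d n ^ 2)

end Pool.Agent.H93.ET
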