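import Pool.Agent.H93.ET.Defs

/-!
# The exact growth threshold, module PTG: the functional
-/

set_option autoImplicit false

namespace Pool.Agent.H93.ET

open MeasureTheory AddCircle Finset Pool.Agent.H87.Synth Pool.Agent.H85.SC

theorem regroup {ι : Type*} (X : Finset ι) (p : ι → ℤ) (c : ι → ℂ) (φ : ℤ → ℂ) :
    ∑ n ∈ X.image p, (∑ x ∈ X.filter (fun x => p x = n), c x) * φ n = ∑ x ∈ X, c x * φ (p x) := by
  rw [← Finset.sum_fiberwise_of_maps_to (fun x hx => Finset.mem_image_of_mem p hx)]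
  refine Finset.sum_congr rfl fun n _ => ?_
  rw [Finset.sum_mul]
  exact Finset.sum_congr rfl fun x hx => by rw [(Finset.mem_filter.1 hx).2]

section

variable {d : ℕ → ℝ} (D : Dat d)

/-- index set of the points of level `k` -/
noncomputable def IX (k : ℕ) : Finset (ℤ × ℤ × Bool) :=
  Ioo (-(2 * (D.b (D.mu (k + 1)) : ℤ))) (2 * (D.b (D.mu (k + 1)) : ℤ)) ×ˢ
    (({0, 1} : Finset ℤ) ×ˢ (Finset.univ : Finset Bool))

/-- the weights of level `k` -/
noncomputable def cB (k : ℕ) (x : ℤ × ℤ × Bool) : ℂ :=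
  (1 - 2 * (x.2.1 : ℂ)) * (sg x.2.2 : ℂ) * (D.g k x.1 : ℂ)

theorem mem_IX {k : ℕ} {x : ℤ × ℤ × Bool} (h : D.g k x.1 ≠ 0) (hi : x.2.1 = 0 ∨ x.2.1 = 1) :
    x ∈ IX D k := by
  obtain ⟨-, h2⟩ := D.gsupp k x.1 h
  unfold IX
  rw [Finset.mem_product, Finset.mem_product, Finset.mem_Ioo]
  refine ⟨?_, ?_, Finset.mem_univ _⟩
  · have := abs_lt.1 h2
    constructor <;> linarith [this.1, this.2]
  · simpa using hi

theorem IX_i {k : ℕ} {x : ℤ × ℤ × Bool} (h : x ∈ IX D k) : x.2.1 = 0 ∨ x.2.1 = 1 := by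
  unfold IX at h
  rw [Finset.mem_product, Finset.mem_product] at h
  simpa using h.2.1

theorem sg_mul_self (s : Bool) : (sg s : ℂ) * (sg s : ℂ) = 1 := by
  cases s <;> simp [sg]

theorem sum_IX (k : ℕ) (F : ℤ × ℤ × Bool → ℂ) :
    ∑ x ∈ IX D k, F x = ∑ t ∈ Ioo (-(2 * (D.b (D.mu (k + 1)) : ℤ)))
      (2 * (D.b (D.mu (k + 1)) : ℤ)), ((F (t, 0, true) + F (t, 0, false)) +
        (F (t, 1, true) + F (t, 1, false))) := by
  unfold IX
  rw [Finset.sum_product]
  refine Finset.sum_congr rfl fun t _ => ?_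
  rw [Finset.sum_product, Finset.sum_pair (by norm_num), Fintype.sum_bool, Fintype.sum_bool]

theorem pt_true (k : ℕ) (t i : ℤ) : pt k t i true = 12 * t + 6 * i + 2 * ((k : ℤ) % 2) := by
  simp [pt, jj]

theorem pt_false (k : ℕ) (t i : ℤ) : pt k t i false = 12 * t + 6 * i + 2 * ((k : ℤ) % 2) + 1 := by
  simp [pt, jj]

theorem norm_B (k : ℕ) (w : ℂ) (hw : ‖w‖ = 1) :
    ‖∑ x ∈ IX D k, cB D k x * w ^ pt k x.1 x.2.1 x.2.2‖ ≤ 4 * (1 / 2) ^ k := by
  have hw0 : w ≠ 0 := by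
    rintro rfl
    simp at hw
  set ρ : ℤ := (k : ℤ) % 2 with hρ
  have e1 : ∑ x ∈ IX D k, cB D k x * w ^ pt k x.1 x.2.1 x.2.2 =
      (∑ t ∈ Ioo (-(2 * (D.b (D.mu (k + 1)) : ℤ))) (2 * (D.b (D.mu (k + 1)) : ℤ)),
        (D.g k t : ℂ) * (w ^ 12) ^ t) * (w ^ (2 * ρ) * ((1 - w ^ 6) * (1 - w))) := by
    rw [sum_IX, Finset.sum_mul]
    refine Finset.sum_congr rfl fun t _ => ?_
    simp only [cB, pt_true, pt_false, ← hρ]
    have h12 : (w ^ 12) ^ t = w ^ (12 * t) := by
      rw [zpow_mul]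
      norm_cast
    rw [h12]
    have a1 : w ^ (12 * t + 6 * 0 + 2 * ρ) = w ^ (12 * t) * w ^ (2 * ρ) := by
      rw [← zpow_add₀ hw0]; congr 1; ring
    have a2 : w ^ (12 * t + 6 * 0 + 2 * ρ + 1) = w ^ (12 * t) * w ^ (2 * ρ) * w := by
      rw [zpow_add₀ hw0, a1, zpow_one]
    have a3 : w ^ (12 * t + 6 * 1 + 2 * ρ) = w ^ (12 * t) * w ^ (2 * ρ) * w ^ 6 := by
      have : w ^ 6 = w ^ (6 : ℤ) := by norm_cast
      rw [this, ← zpow_add₀ hw0, ← zpow_add₀ hw0]; congr 1; ring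
    have a4 : w ^ (12 * t + 6 * 1 + 2 * ρ + 1) = w ^ (12 * t) * w ^ (2 * ρ) * w ^ 6 * w := by
      rw [zpow_add₀ hw0, a3, zpow_one]
    rw [a1, a2, a3, a4]
    simp only [sg, if_true, Bool.false_eq_true, if_false]
    push_cast
    ring
  rw [e1, norm_mul, norm_mul, norm_mul, norm_zpow, hw, one_zpow, one_mul]
  have b1 := D.gnorm k (w ^ 12) (by rw [norm_pow, hw, one_pow])
  have b2 : ‖1 - w ^ 6‖ ≤ 2 := by
    refine (norm_sub_le _ _).trans ?_
    rw [norm_one, norm_pow, hw]; norm_num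
  have b3 : ‖1 - w‖ ≤ 2 := by
    refine (norm_sub_le _ _).trans ?_
    rw [norm_one, hw]; norm_num
  calc _ ≤ (1 / 2 : ℝ) ^ k * (2 * 2) :=
        mul_le_mul b1 (mul_le_mul b2 b3 (norm_nonneg _) (by norm_num)) (by positivity)
          (by positivity)
    _ = 4 * (1 / 2) ^ k := by ring

/-- the functional of the levels -/
theorem exB (h2 : T_SER) : ∃ Λ : L1 →L[ℂ] ℂ, ∀ f : L1,
    HasSum (fun k => ∑ x ∈ IX D k, cB D k x * coeff f (pt k x.1 x.2.1 x.2.2)) (Λ f) := by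
  classical
  obtain ⟨Λ, hΛ⟩ := h2 (fun k => (IX D k).image fun x => pt k x.1 x.2.1 x.2.2)
    (fun k n => ∑ x ∈ (IX D k).filter (fun x => pt k x.1 x.2.1 x.2.2 = n), cB D k x)
    (fun k => 4 * (1 / 2) ^ k)
    ((summable_geometric_of_lt_one (by norm_num) (by norm_num)).mul_left 4)
    (fun k w hw => by
      rw [regroup (IX D k) (fun x => pt k x.1 x.2.1 x.2.2) (cB D k) (fun n => w ^ n)]
      exact norm_B D k w hw)
  refine ⟨Λ, fun f => ?_⟩
  have := hΛ f
  simpa only [regroup (IX D _) (fun x => pt _ x.1 x.2.1 x.2.2) (cB D _) (fun n => coeff f n)]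
    using this

end

theorem ptg (h1 : T_PNT) (h2 : T_SER) (h3 : T_GCT) (h4 : T_GSP) : T_PTG := by
  classical
  intro d D
  obtain ⟨-, huniq, hnp, hgu, -, -⟩ := h1 d D
  obtain ⟨ΛB, hB⟩ := exB D h2
  obtain ⟨ΛG, hG⟩ := h2 (fun k => GW k (D.Z k)) (fun k z => -((3 : ℂ) ^ k / nc k) * (cp k z : ℂ))
    (fun k => 100 * (1 / 2) ^ k)
    ((summable_geometric_of_lt_one (by norm_num) (by norm_num)).mul_left 100)
    (fun k w hw => h4 k (D.Z k) w hw)
  let ΛC : L1 →L[ℂ] ℂ := ∑ s : Bool, ∑ t ∈ D.T 0 (D.mu 0),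
    cB D 0 (t, iA (D.g 0 t), s) • coeffL (pt 0 t (iA (D.g 0 t)) s)
  have hC : ∀ f, ΛC f = ∑ s : Bool, ∑ t ∈ D.T 0 (D.mu 0),
      cB D 0 (t, iA (D.g 0 t), s) * coeff f (pt 0 t (iA (D.g 0 t)) s) := by
    intro f
    simp only [ΛC, _root_.sum_apply, smul_apply, coeffL_apply, smul_eq_mul]
  have hiA : ∀ x, iA x = 0 ∨ iA x = 1 := by
    intro x
    unfold iA
    split_ifs
    · right; rfl
    · left; rfl
  have hT0 := D.hT 0 (D.mu 0) le_rfl (D.hmu (by norm_num))
  -- values of `ΛB`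
  have vB1 : ∀ k t i s, D.g k t ≠ 0 → (i = 0 ∨ i = 1) →
      ΛB (ex (pt k t i s)) = cB D k (t, i, s) := by
    intro k t i s hg hi
    refine (hB _).unique ?_
    have key : ∀ k' x, x ∈ IX D k' → ¬ (k' = k ∧ x = (t, i, s)) →
        cB D k' x * coeff (ex (pt k t i s)) (pt k' x.1 x.2.1 x.2.2) = 0 := by
      intro k' x hx hne
      by_cases hg' : D.g k' x.1 = 0
      · simp [cB, hg']
      · rw [coeff_ex, if_neg, mul_zero]
        intro he
        obtain ⟨e1, e2, e3, e4⟩ := huniq _ _ _ _ _ _ _ _ hg hg' hi (IX_i D hx) he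
        refine hne ⟨e1.symm, ?_⟩
        ext
        · exact e2.symm
        · exact e3.symm
        · simp only; rw [e4]
    have e1 := hasSum_single (f := fun k' => ∑ x ∈ IX D k', cB D k' x *
      coeff (ex (pt k t i s)) (pt k' x.1 x.2.1 x.2.2)) k (fun k' hk' =>
        Finset.sum_eq_zero fun x hx => key k' x hx fun h => hk' h.1)
    have e2 : ∑ x ∈ IX D k, cB D k x * coeff (ex (pt k t i s)) (pt k x.1 x.2.1 x.2.2) =
        cB D k (t, i, s) := by
      rw [Finset.sum_eq_single (t, i, s)]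
      · rw [coeff_ex, if_pos rfl, mul_one]
      · intro x hx hne
        exact key k x hx fun h => hne h.2
      · intro h
        exact absurd (mem_IX D (x := (t, i, s)) hg hi) h
    rw [← e2]
    exact e1
  have vB0 : ∀ z, (∀ k t i s, D.g k t ≠ 0 → (i = 0 ∨ i = 1) → z ≠ pt k t i s) →
      ΛB (ex z) = 0 := by
    intro z hz
    refine (hB _).unique ?_
    have : (fun k' => ∑ x ∈ IX D k', cB D k' x * coeff (ex z) (pt k' x.1 x.2.1 x.2.2)) =
        fun _ => 0 := by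
      funext k'
      refine Finset.sum_eq_zero fun x hx => ?_
      by_cases hg' : D.g k' x.1 = 0
      · simp [cB, hg']
      · rw [coeff_ex, if_neg (hz _ _ _ _ hg' (IX_i D hx)), mul_zero]
    rw [this]
    exact hasSum_zero
  -- values of `ΛG`
  have vG1 : ∀ k, ∀ z ∈ GW k (D.Z k), ΛG (ex z) = -((3 : ℂ) ^ k / nc k) * (cp k z : ℂ) := by
    intro k z hz
    refine (hG _).unique ?_
    have e1 := hasSum_single (f := fun k' => ∑ y ∈ GW k' (D.Z k'),
      -((3 : ℂ) ^ k' / nc k') * (cp k' y : ℂ) * coeff (ex z) y) k (fun k' hk' =>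
        Finset.sum_eq_zero fun y hy => by
          rw [coeff_ex, if_neg, mul_zero]
          rintro rfl
          exact hk' (hgu _ _ _ hy hz))
    have e2 : ∑ y ∈ GW k (D.Z k), -((3 : ℂ) ^ k / nc k) * (cp k y : ℂ) * coeff (ex z) y =
        -((3 : ℂ) ^ k / nc k) * (cp k z : ℂ) := by
      rw [Finset.sum_eq_single z]
      · rw [coeff_ex, if_pos rfl, mul_one]
      · intro y _ hne
        rw [coeff_ex, if_neg (fun h => hne h.symm), mul_zero]
      · intro h
        exact absurd hz h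
    rw [← e2]
    exact e1
  have vG0 : ∀ z, (∀ k, z ∉ GW k (D.Z k)) → ΛG (ex z) = 0 := by
    intro z hz
    refine (hG _).unique ?_
    have : (fun k' => ∑ y ∈ GW k' (D.Z k'),
        -((3 : ℂ) ^ k' / nc k') * (cp k' y : ℂ) * coeff (ex z) y) = fun _ => 0 := by
      funext k'
      refine Finset.sum_eq_zero fun y hy => ?_
      rw [coeff_ex, if_neg, mul_zero]
      rintro rfl
      exact hz _ hy
    rw [this]
    exact hasSum_zero
  -- values of `ΛC`
  have vC0 : ∀ z, (∀ t s, t ∈ D.T 0 (D.mu 0) → z ≠ pt 0 t (iA (D.g 0 t)) s) →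
      ΛC (ex z) = 0 := by
    intro z hz
    rw [hC]
    refine Finset.sum_eq_zero fun s _ => Finset.sum_eq_zero fun t ht => ?_
    rw [coeff_ex, if_neg (hz t s ht), mul_zero]
  have vC1 : ∀ t s, t ∈ D.T 0 (D.mu 0) →
      ΛC (ex (pt 0 t (iA (D.g 0 t)) s)) = cB D 0 (t, iA (D.g 0 t), s) := by
    intro t s ht
    have hgt := hT0.2.1 t ht
    have key : ∀ t' s', t' ∈ D.T 0 (D.mu 0) → ¬ (t' = t ∧ s' = s) →
        cB D 0 (t', iA (D.g 0 t'), s') *
          coeff (ex (pt 0 t (iA (D.g 0 t)) s)) (pt 0 t' (iA (D.g 0 t')) s') = 0 := by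
      intro t' s' ht' hne
      rw [coeff_ex, if_neg, mul_zero]
      intro he
      obtain ⟨-, e2, -, e4⟩ := huniq _ _ _ _ _ _ _ _ hgt (hT0.2.1 t' ht') (hiA _) (hiA _) he
      exact hne ⟨e2.symm, e4.symm⟩
    rw [hC, Finset.sum_eq_single s]
    · rw [Finset.sum_eq_single t]
      · rw [coeff_ex, if_pos rfl, mul_one]
      · intro t' ht' hne
        exact key t' s ht' fun h => hne h.1
      · intro h
        exact absurd ht h
    · intro s' _ hne
      exact Finset.sum_eq_zero fun t' ht' => key t' s' ht' fun h => hne h.2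
    · intro h
      exact absurd (Finset.mem_univ _) h
  have hval : ∀ g, (ΛB + ΛG - ΛC) g = ΛB g + ΛG g - ΛC g := fun g => rfl
  refine ⟨ΛB + ΛG - ΛC, ⟨?_, ?_, ?_, ?_⟩, ?_⟩
  · intro k t i s hg hi hex
    rw [hval, vB1 k t i s hg hi, vG0, vC0]
    · simp [cB]
    · intro t' s' ht' he
      obtain ⟨e1, e2, e3, e4⟩ := huniq _ _ _ _ _ _ _ _ hg (hT0.2.1 t' ht') hi (hiA _) he
      subst e1 e2
      exact hex ⟨rfl, ht', e3⟩
    · intro k' hz
      exact hnp k k' t i s _ hi hz rfl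
  · intro t s ht
    rw [hval, vB1 0 t _ s (hT0.2.1 t ht) (hiA _), vG0, vC1 t s ht]
    · ring
    · intro k' hz
      exact hnp 0 k' t _ s _ (hiA _) hz rfl
  · intro k z hz
    rw [hval, vG1 k z hz, vB0, vC0]
    · ring
    · intro t s _ he
      exact hnp 0 k t _ s z (hiA _) hz he
    · intro k' t i s _ hi he
      exact hnp k' k t i s z hi hz he
  · intro z hz1 hz2
    rw [hval, vB0 z hz1, vG0 z hz2, vC0]
    · ring
    · intro t s ht he
      exact hz1 0 t _ s (hT0.2.1 t ht) (hiA _) he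
  · -- the pairing
    rintro f ⟨hf1, hf2⟩
    have pB : ΛB f = 0 := by
      refine (hB f).unique ?_
      have : (fun k => ∑ x ∈ IX D k, cB D k x * coeff f (pt k x.1 x.2.1 x.2.2)) =
          fun _ => 0 := by
        funext k
        have hx : ∀ x ∈ IX D k, cB D k x * coeff f (pt k x.1 x.2.1 x.2.2) =
            (1 - 2 * (x.2.1 : ℂ)) * (D.g k x.1 : ℂ) * (1 / 3) ^ k := by
          intro x hx
          by_cases hg : D.g k x.1 = 0
          · simp [cB, hg]
          · rw [hf1 k _ _ _ hg (IX_i D hx)]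
            unfold cB
            have := sg_mul_self x.2.2
            linear_combination ((1 - 2 * (x.2.1 : ℂ)) * (D.g k x.1 : ℂ) * (1 / 3) ^ k) * this
        rw [Finset.sum_congr rfl hx, sum_IX]
        refine Finset.sum_eq_zero fun t _ => ?_
        push_cast
        ring
      rw [this]
      exact hasSum_zero
    have pG : ΛG f = 0 := by
      refine (hG f).unique ?_
      have : (fun k => ∑ z ∈ GW k (D.Z k), -((3 : ℂ) ^ k / nc k) * (cp k z : ℂ) * coeff f z) =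
          fun _ => 0 := by
        funext k
        have hz : ∀ z ∈ GW k (D.Z k), -((3 : ℂ) ^ k / nc k) * (cp k z : ℂ) * coeff f z =
            (-((3 : ℂ) ^ k / nc k) * (1 / 3) ^ (k + 1)) * ((cp k z * cm k z : ℤ) : ℂ) := by
          intro z hz
          rw [hf2 k z hz]
          push_cast
          ring
        rw [Finset.sum_congr rfl hz, ← Finset.mul_sum, ← Int.cast_sum, (h3 k (D.Z k)).2.2.2.2]
        simp
      rw [this]
      exact hasSum_zero
    have pC : ΛC f = -2 := by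
      rw [hC]
      have hs : ∀ s : Bool, ∑ t ∈ D.T 0 (D.mu 0), cB D 0 (t, iA (D.g 0 t), s) *
          coeff f (pt 0 t (iA (D.g 0 t)) s) = -1 := by
        intro s
        have ht : ∀ t ∈ D.T 0 (D.mu 0), cB D 0 (t, iA (D.g 0 t), s) *
            coeff f (pt 0 t (iA (D.g 0 t)) s) = ((-|D.g 0 t| : ℝ) : ℂ) := by
          intro t ht
          rw [hf1 0 _ _ _ (hT0.2.1 t ht) (hiA _)]
          have e1 := sg_mul_self s
          have e2 : (1 - 2 * ((iA (D.g 0 t) : ℤ) : ℂ)) * (D.g 0 t : ℂ) =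
              ((-|D.g 0 t| : ℝ) : ℂ) := by
            unfold iA
            split_ifs with h
            · rw [abs_of_pos h]; push_cast; ring
            · rw [abs_of_nonpos (not_lt.1 h)]; push_cast; ring
          rw [← e2]
          unfold cB
          simp only [pow_zero, mul_one]
          linear_combination ((1 - 2 * ((iA (D.g 0 t) : ℤ) : ℂ)) * (D.g 0 t : ℂ)) * e1
        rw [Finset.sum_congr rfl ht, ← Complex.ofReal_sum, Finset.sum_neg_distrib, hT0.2.2]
        simp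
      rw [Fintype.sum_bool, hs, hs]
      norm_num
    rw [hval, pB, pG, pC]
    norm_num

end Pool.Agent.H93.ET
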