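import Pool.Agent.H93.ET.Defs

/-!
# The exact growth threshold, module KKL: a continuous function with large coefficients
-/

set_option autoImplicit false

namespace Pool.Agent.H93.ET

open MeasureTheory AddCircle Finset Pool.Agent.H87.Synth Pool.Agent.H85.SC

theorem integ {f : Circ → ℝ} (hf : Continuous f) :
    Integrable f (haarAddCircle : Measure Circ) :=
  hf.integrable_of_hasCompactSupport (HasCompactSupport.of_compactSpace f)

theorem sq_int (h2 : T_ORT) (Q : Finset ℤ) (hQ : ∀ t ∈ Q, 0 < t) (a : ℤ → ℝ) :
    ∫ x, (∑ t ∈ Q, a t * cs t x) ^ 2 ∂(haarAddCircle : Measure Circ) =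
      (∑ t ∈ Q, a t ^ 2) / 2 := by
  have hc := h2.1
  have e1 : ∀ x : Circ, (∑ t ∈ Q, a t * cs t x) ^ 2 =
      ∑ s ∈ Q, ∑ t ∈ Q, (a s * a t) * (cs s x * cs t x) := by
    intro x
    rw [sq, Finset.sum_mul_sum]
    exact Finset.sum_congr rfl fun s _ => Finset.sum_congr rfl fun t _ => by ring
  simp_rw [e1]
  rw [integral_finsetSum]
  · have : ∀ s ∈ Q, ∫ x, ∑ t ∈ Q, (a s * a t) * (cs s x * cs t x)
        ∂(haarAddCircle : Measure Circ) = a s ^ 2 / 2 := by
      intro s hs
      rw [integral_finsetSum]
      · have e2 : ∀ t ∈ Q, ∫ x, (a s * a t) * (cs s x * cs t x)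
            ∂(haarAddCircle : Measure Circ) = if s = t then a s * a t * (1 / 2) else 0 := by
          intro t ht
          rw [integral_const_mul, h2.2.2 s t (hQ s hs) (hQ t ht)]
          split_ifs <;> simp
        rw [Finset.sum_congr rfl e2, Finset.sum_ite_eq, if_pos hs]
        ring
      · intro t _
        exact integ (((hc s).mul (hc t)).const_mul _)
    rw [Finset.sum_congr rfl this, Finset.sum_div]
  · intro s _
    exact integ (continuous_finsetSum _ fun t _ => ((hc s).mul (hc t)).const_mul _)

theorem cont_Phi : Continuous Phi := by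
  unfold Phi
  refine (continuous_id.mul Real.continuous_arctan).sub (Continuous.div_const ?_ _)
  refine Continuous.log (by fun_prop) fun u => ?_
  positivity

theorem kkl (h1 : T_PHI) (h2 : T_ORT) : T_KKL := by
  classical
  intro Q β B hQ hβ hB hs
  have hc := h2.1
  have hle := h2.2.1
  let b : ℤ → ℝ := fun t => β t / B
  have hb0 : ∀ t ∈ Q, 0 ≤ b t := fun t ht => div_nonneg (hβ t ht) hB.le
  have hb2 : ∑ t ∈ Q, b t ^ 2 ≤ 1 := by
    have e : ∑ t ∈ Q, b t ^ 2 = (∑ t ∈ Q, β t ^ 2) / B ^ 2 := by
      rw [Finset.sum_div]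
      exact Finset.sum_congr rfl fun t _ => by simp only [b]; rw [div_pow]
    rw [e, div_le_one (by positivity)]
    exact hs
  let a : Finset ℤ → ℤ → ℝ := fun P t => if t ∈ P then b t else - b t
  let U : Finset ℤ → Circ → ℝ := fun P x => ∑ t ∈ Q, a P t * cs t x
  have ha2 : ∀ P t, a P t ^ 2 = b t ^ 2 := by
    intro P t
    simp only [a]
    split_ifs <;> ring
  have hUc : ∀ P, Continuous (U P) := fun P =>
    continuous_finsetSum _ fun t _ => (hc t).const_mul _
  have hU2 : ∀ P, ∫ x, U P x ^ 2 ∂(haarAddCircle : Measure Circ) ≤ 1 / 2 := by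
    intro P
    have := sq_int h2 Q hQ (a P)
    rw [show (∫ x, U P x ^ 2 ∂(haarAddCircle : Measure Circ)) = _ from this]
    have e : ∑ t ∈ Q, a P t ^ 2 = ∑ t ∈ Q, b t ^ 2 := Finset.sum_congr rfl fun t _ => ha2 P t
    rw [e]
    linarith
  obtain ⟨P, hP, hmax⟩ := Finset.exists_max_image Q.powerset
    (fun P => ∫ x, Phi (U P x) ∂(haarAddCircle : Measure Circ)) ⟨∅, by simp⟩
  rw [Finset.mem_powerset] at hP
  have hatc : Continuous fun x => Real.arctan (U P x) := Real.continuous_arctan.comp (hUc P)
  -- first order condition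
  have key0 : ∀ m ∈ Q, 0 < b m →
      b m / 24 ≤ |∫ x, Real.arctan (U P x) * cs m x ∂(haarAddCircle : Measure Circ)| := by
    intro m hm hbm
    let h : Circ → ℝ := fun x => a P m * cs m x
    have hhc : Continuous h := (hc m).const_mul _
    -- the flipped sum
    obtain ⟨P', hP', hflip⟩ : ∃ P' ∈ Q.powerset, ∀ x, U P' x = U P x - 2 * h x := by
      refine ⟨if m ∈ P then P.erase m else insert m P, ?_, fun x => ?_⟩
      · rw [Finset.mem_powerset]
        split_ifs
        · exact (Finset.erase_subset _ _).trans hP
        · exact Finset.insert_subset hm hP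
      · have hm' : a (if m ∈ P then P.erase m else insert m P) m = - a P m := by
          simp only [a]
          by_cases hmP : m ∈ P
          · simp [hmP]
          · simp [hmP]
        have ht' : ∀ t ∈ Q.erase m, a (if m ∈ P then P.erase m else insert m P) t = a P t := by
          intro t ht
          have htm : t ≠ m := Finset.ne_of_mem_erase ht
          simp only [a]
          by_cases hmP : m ∈ P
          · simp [hmP, htm]
          · simp [hmP, htm]
        show ∑ t ∈ Q, a _ t * cs t x = ∑ t ∈ Q, a P t * cs t x - 2 * (a P m * cs m x)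
        rw [← Finset.add_sum_erase Q (fun t => a P t * cs t x) hm,
          ← Finset.add_sum_erase Q (fun t => a (if m ∈ P then P.erase m else insert m P) t *
            cs t x) hm, Finset.sum_congr rfl fun t ht => by rw [ht' t ht]]
        simp only [hm']
        ring
    have hJ := hmax P' hP'
    simp only [hflip] at hJ
    let w : Circ → ℝ := fun x => 1 + 2 * U P x ^ 2 + 8 * h x ^ 2
    have hwc : Continuous w := by
      have := hUc P
      fun_prop
    have hw0 : ∀ x, 1 ≤ w x := by
      intro x
      simp only [w]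
      nlinarith [sq_nonneg (U P x), sq_nonneg (h x)]
    set lam : ℝ := b m / 12 with hlam
    have hlam0 : 0 < lam := by positivity
    -- pointwise
    have hpt : ∀ x, Phi (U P x) - 2 * h x * Real.arctan (U P x) +
        2 * (2 * lam * |h x| - lam ^ 2 * w x) ≤ Phi (U P x - 2 * h x) := by
      intro x
      have e := h1 (U P x) (2 * h x)
      have e2 : 1 + 2 * U P x ^ 2 + 2 * (2 * h x) ^ 2 = w x := by
        simp only [w]; ring
      rw [e2] at e
      have hw := hw0 x
      have e3 : 2 * (2 * lam * |h x| - lam ^ 2 * w x) ≤ (2 * h x) ^ 2 / 2 / w x := by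
        rw [le_div_iff₀ (by linarith)]
        have := sq_abs (h x)
        nlinarith [sq_nonneg (|h x| - lam * w x)]
      linarith
    -- integrate
    have i1 : Integrable (fun x => Phi (U P x)) (haarAddCircle : Measure Circ) :=
      integ (cont_Phi.comp (hUc P))
    have i2 : Integrable (fun x => Phi (U P x - 2 * h x)) (haarAddCircle : Measure Circ) :=
      integ (cont_Phi.comp ((hUc P).sub (hhc.const_mul _)))
    have i3 : Integrable (fun x => 2 * h x * Real.arctan (U P x))
        (haarAddCircle : Measure Circ) := integ ((hhc.const_mul _).mul hatc)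
    have i4 : Integrable (fun x => |h x|) (haarAddCircle : Measure Circ) := integ hhc.abs
    have i5 : Integrable w (haarAddCircle : Measure Circ) := integ hwc
    have i6 : Integrable (fun x => Phi (U P x) - 2 * h x * Real.arctan (U P x))
        (haarAddCircle : Measure Circ) := i1.sub i3
    have i7 : Integrable (fun x => 2 * lam * |h x| - lam ^ 2 * w x)
        (haarAddCircle : Measure Circ) := (i4.const_mul (2 * lam)).sub (i5.const_mul (lam ^ 2))
    have hint : ∫ x, (Phi (U P x) - 2 * h x * Real.arctan (U P x) +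
        2 * (2 * lam * |h x| - lam ^ 2 * w x)) ∂(haarAddCircle : Measure Circ) ≤
        ∫ x, Phi (U P x - 2 * h x) ∂(haarAddCircle : Measure Circ) :=
      integral_mono (i6.add (i7.const_mul 2)) i2 hpt
    rw [integral_add i6 (i7.const_mul 2), integral_sub i1 i3, integral_const_mul,
      integral_sub (i4.const_mul (2 * lam)) (i5.const_mul (lam ^ 2)), integral_const_mul,
      integral_const_mul] at hint
    -- the integrals
    have habs : |a P m| = b m := by
      simp only [a]
      split_ifs
      · exact abs_of_pos hbm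
      · rw [abs_neg, abs_of_pos hbm]
    have hcc : ∫ x, cs m x * cs m x ∂(haarAddCircle : Measure Circ) = 1 / 2 := by
      rw [h2.2.2 m m (hQ m hm) (hQ m hm), if_pos rfl]
    have hI4 : b m / 2 ≤ ∫ x, |h x| ∂(haarAddCircle : Measure Circ) := by
      have e : b m / 2 = ∫ x, b m * (cs m x * cs m x) ∂(haarAddCircle : Measure Circ) := by
        rw [integral_const_mul, hcc]; ring
      rw [e]
      refine integral_mono (integ (((hc m).mul (hc m)).const_mul _)) i4 fun x => ?_
      show b m * (cs m x * cs m x) ≤ |a P m * cs m x|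
      rw [abs_mul, habs]
      refine mul_le_mul_of_nonneg_left ?_ hbm.le
      have h3 := hle m x
      have h4 := abs_mul_abs_self (cs m x)
      nlinarith [abs_nonneg (cs m x)]
    have hI5 : ∫ x, w x ∂(haarAddCircle : Measure Circ) ≤ 6 := by
      have e1 : ∫ x, w x ∂(haarAddCircle : Measure Circ) =
          1 + 2 * ∫ x, U P x ^ 2 ∂(haarAddCircle : Measure Circ) +
            8 * ∫ x, h x ^ 2 ∂(haarAddCircle : Measure Circ) := by
        simp only [w]
        have j1 : Integrable (fun x => 2 * U P x ^ 2) (haarAddCircle : Measure Circ) :=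
          integ (((hUc P).pow 2).const_mul _)
        have j2 : Integrable (fun x => 8 * h x ^ 2) (haarAddCircle : Measure Circ) :=
          integ ((hhc.pow 2).const_mul _)
        have j3 : Integrable (fun x => 1 + 2 * U P x ^ 2) (haarAddCircle : Measure Circ) :=
          (integrable_const (1 : ℝ)).add j1
        rw [integral_add j3 j2, integral_add (integrable_const (1 : ℝ)) j1,
          integral_const_mul, integral_const_mul]
        simp
      have e2 : ∫ x, h x ^ 2 ∂(haarAddCircle : Measure Circ) = b m ^ 2 / 2 := by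
        have : ∀ x, h x ^ 2 = b m ^ 2 * (cs m x * cs m x) := by
          intro x
          simp only [h]
          rw [mul_pow, ha2]
          ring
        simp_rw [this]
        rw [integral_const_mul, hcc]
        ring
      have e3 : b m ^ 2 ≤ 1 :=
        (Finset.single_le_sum (f := fun t => b t ^ 2) (fun t _ => sq_nonneg _) hm).trans hb2
      have e4 := hU2 P
      rw [e1, e2]
      linarith
    have hI3 : ∫ x, 2 * h x * Real.arctan (U P x) ∂(haarAddCircle : Measure Circ) =
        2 * (a P m * ∫ x, Real.arctan (U P x) * cs m x ∂(haarAddCircle : Measure Circ)) := by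
      rw [← integral_const_mul, ← integral_const_mul]
      refine integral_congr_ae (Filter.Eventually.of_forall fun x => ?_)
      simp only [h]
      ring
    rw [hI3] at hint
    set I := ∫ x, Real.arctan (U P x) * cs m x ∂(haarAddCircle : Measure Circ) with hI
    have h5 : 2 * lam * (b m / 2) - lam ^ 2 * 6 ≤ a P m * I := by
      have h6 : 2 * lam * (b m / 2) ≤ 2 * lam * ∫ x, |h x| ∂(haarAddCircle : Measure Circ) :=
        mul_le_mul_of_nonneg_left hI4 (by positivity)
      have h7 : lam ^ 2 * ∫ x, w x ∂(haarAddCircle : Measure Circ) ≤ lam ^ 2 * 6 :=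
        mul_le_mul_of_nonneg_left hI5 (by positivity)
      linarith
    have h8 : a P m * I ≤ b m * |I| := by
      calc a P m * I ≤ |a P m * I| := le_abs_self _
        _ = b m * |I| := by rw [abs_mul, habs]
    have h9 : b m * (b m / 24) ≤ b m * |I| := by
      refine le_trans (le_of_eq ?_) (h5.trans h8)
      rw [hlam]; ring
    exact le_of_mul_le_mul_left h9 hbm
  have hHc : Continuous fun x => 24 * B * Real.arctan (U P x) := hatc.const_mul _
  have hbound : ∀ x, |24 * B * Real.arctan (U P x)| ≤ 38 * B := by
    intro x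
    rw [abs_mul, abs_of_pos (by positivity : (0 : ℝ) < 24 * B)]
    have h3 : |Real.arctan (U P x)| ≤ Real.pi / 2 :=
      abs_le.2 ⟨(Real.neg_pi_div_two_lt_arctan _).le, (Real.arctan_lt_pi_div_two _).le⟩
    have h4 := Real.pi_lt_d2
    nlinarith
  refine ⟨fun x => 24 * B * Real.arctan (U P x), hHc, hbound, ?_, ?_⟩
  · intro m hm
    rcases (hb0 m hm).eq_or_lt with h0 | h0
    · have : β m = 0 := by
        have h3 : β m / B = 0 := h0.symm
        rcases div_eq_zero_iff.1 h3 with h4 | h4
        · exact h4
        · exact absurd h4 hB.ne'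
      rw [this]
      exact abs_nonneg _
    · have h3 := key0 m hm h0
      have e : ∫ x, 24 * B * Real.arctan (U P x) * cs m x ∂(haarAddCircle : Measure Circ) =
          24 * B * ∫ x, Real.arctan (U P x) * cs m x ∂(haarAddCircle : Measure Circ) := by
        rw [← integral_const_mul]
        refine integral_congr_ae (Filter.Eventually.of_forall fun x => ?_)
        simp only
        ring
      rw [e, abs_mul, abs_of_pos (by positivity : (0 : ℝ) < 24 * B)]
      calc β m = 24 * B * (b m / 24) := by simp only [b]; field_simp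
        _ ≤ _ := mul_le_mul_of_nonneg_left h3 (by positivity)
  · -- Bessel
    set H : Circ → ℝ := fun x => 24 * B * Real.arctan (U P x) with hH
    set c : ℤ → ℝ := fun t => ∫ x, H x * cs t x ∂(haarAddCircle : Measure Circ) with hcdef
    have i1 : Integrable (fun x => H x ^ 2) (haarAddCircle : Measure Circ) := integ (hHc.pow 2)
    have hSc : Continuous fun x => ∑ t ∈ Q, c t * cs t x :=
      continuous_finsetSum _ fun t _ => (hc t).const_mul _
    have i2 : Integrable (fun x => H x * ∑ t ∈ Q, c t * cs t x)
        (haarAddCircle : Measure Circ) := integ (hHc.mul hSc)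
    have i3 : Integrable (fun x => (∑ t ∈ Q, c t * cs t x) ^ 2)
        (haarAddCircle : Measure Circ) := integ (hSc.pow 2)
    have e1 : ∫ x, H x * ∑ t ∈ Q, c t * cs t x ∂(haarAddCircle : Measure Circ) =
        ∑ t ∈ Q, c t ^ 2 := by
      have : ∀ x, H x * ∑ t ∈ Q, c t * cs t x = ∑ t ∈ Q, c t * (H x * cs t x) := by
        intro x
        rw [Finset.mul_sum]
        exact Finset.sum_congr rfl fun t _ => by ring
      simp_rw [this]
      have j1 : ∀ t ∈ Q, Integrable (fun x => c t * (H x * cs t x))
          (haarAddCircle : Measure Circ) := fun t _ => integ ((hHc.mul (hc t)).const_mul _)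
      rw [integral_finsetSum _ j1]
      refine Finset.sum_congr rfl fun t _ => ?_
      rw [integral_const_mul]
      simp only [hcdef]
      ring
    have e2 := sq_int h2 Q hQ c
    have e3 : 0 ≤ ∫ x, (H x - 2 * ∑ t ∈ Q, c t * cs t x) ^ 2 ∂(haarAddCircle : Measure Circ) :=
      integral_nonneg fun x => sq_nonneg _
    have e4 : ∫ x, (H x - 2 * ∑ t ∈ Q, c t * cs t x) ^ 2 ∂(haarAddCircle : Measure Circ) =
        ∫ x, H x ^ 2 ∂(haarAddCircle : Measure Circ) - 4 * ∑ t ∈ Q, c t ^ 2 +
          4 * ((∑ t ∈ Q, c t ^ 2) / 2) := by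
      have : ∀ x, (H x - 2 * ∑ t ∈ Q, c t * cs t x) ^ 2 =
          (H x ^ 2 - 4 * (H x * ∑ t ∈ Q, c t * cs t x)) + 4 * (∑ t ∈ Q, c t * cs t x) ^ 2 := by
        intro x; ring
      simp_rw [this]
      have j2 : Integrable (fun x => H x ^ 2 - 4 * (H x * ∑ t ∈ Q, c t * cs t x))
          (haarAddCircle : Measure Circ) := i1.sub (i2.const_mul 4)
      rw [integral_add j2 (i3.const_mul 4), integral_sub i1
        (i2.const_mul 4), integral_const_mul, integral_const_mul, e1, e2]
    have e5 : ∫ x, H x ^ 2 ∂(haarAddCircle : Measure Circ) ≤ (38 * B) ^ 2 := by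
      have : ∫ x, H x ^ 2 ∂(haarAddCircle : Measure Circ) ≤
          ∫ _x, (38 * B) ^ 2 ∂(haarAddCircle : Measure Circ) := by
        refine integral_mono i1 (integrable_const _) fun x => ?_
        have h3 := hbound x
        exact sq_le_sq' (abs_le.1 h3).1 (abs_le.1 h3).2
      refine this.trans (le_of_eq ?_)
      simp
    have e6 : 0 ≤ ∑ t ∈ Q, c t ^ 2 := Finset.sum_nonneg fun t _ => sq_nonneg _
    show ∑ t ∈ Q, c t ^ 2 ≤ (38 * B) ^ 2
    linarith

end Pool.Agent.H93.ET
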