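import Pool.Agent.H93.ET.Defs

/-!
# The exact growth threshold, module NGT: the negative half
-/

set_option autoImplicit false

namespace Pool.Agent.H93.ET

open MeasureTheory AddCircle Finset Pool.Agent.H87.Synth Pool.Agent.H85.SC

theorem ngt (h1 : T_DAT) (h2 : T_PTF) (h3 : T_PTG) (h4 : T_DSJ) (h5 : T_FCO) (h6 : T_SUM)
    (h7 : T_DIA) (h8 : T_CRI) : T_NGT := by
  intro d hpos hmono hsum
  obtain ⟨D⟩ := h1 d hpos hmono hsum
  obtain ⟨f, hf⟩ := h2 d D
  obtain ⟨Λ, hG, hΛ⟩ := h3 d D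
  obtain ⟨hS1, hS2⟩ := h6 d D Λ hG
  obtain ⟨r, hr, hns⟩ := h8 Cl (cl D) (h4 d D).1 f Λ (h5 d D f hf) hS1 hS2
    (by rw [hΛ f hf]; norm_num)
  refine ⟨r, fun n => ?_, fun m n hmn => ?_, hns⟩
  · by_cases h : ∃ c, n ∈ cl D c
    · obtain ⟨c, hc⟩ := h
      refine (Set.toFinite (insert n (cl D c : Set ℤ))).subset ?_
      intro k hk
      rcases (hr n k).1 hk with h | ⟨c', h1, h2⟩
      · left; exact h.symm
      · right
        rw [(h4 d D).1 c c' n hc h1]
        exact h2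
    · refine (Set.finite_singleton n).subset ?_
      intro k hk
      rcases (hr n k).1 hk with h' | ⟨c', h1, h2⟩
      · exact h'.symm
      · exact absurd ⟨c', h1⟩ h
  · rcases (hr m n).1 hmn with h | ⟨c, h1, h2⟩
    · rw [h, sub_self, abs_zero]
      exact (hpos _).le
    · exact h7 d hmono D c m h1 n h2

end Pool.Agent.H93.ET
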