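import Pool.Agent.H93.ET.Defs
import Pool.Agent.H93.ET.KKL
import Pool.Agent.H93.ET.PTG
import Pool.Agent.H93.ET.NGT
import Pool.Agent.H79.ET.PHI
import Pool.Agent.H70.ET.ORT
import Pool.Agent.H32.ET.CUT
import Pool.Agent.H51.ET.SEG
import Pool.Agent.H79.ET.BRK
import Pool.Agent.H79.ET.DAT
import Pool.Agent.H29.ET.GCT
import Pool.Agent.H29.ET.GSP
import Pool.Agent.H24.ET.PNT
import Pool.Agent.H70.ET.PTF
import Pool.Agent.H23.ET.SER
import Pool.Agent.H54.ET.DSJ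
import Pool.Agent.H6.ET.FCO
import Pool.Agent.H80.ET.SUM
import Pool.Agent.H51.ET.DIA
import Pool.Agent.H23.ET.CRI
import Pool.Agent.H23.ET.ALL

/-!
# The exact growth threshold: assembly
-/

set_option autoImplicit false

namespace Pool.Agent.H93.ET

theorem mKKL : T_KKL := kkl Pool.Agent.H79.ET.phi Pool.Agent.H70.ET.ort
theorem mSEG : T_SEG := Pool.Agent.H51.ET.seg mKKL Pool.Agent.H32.ET.cut
theorem mDAT : T_DAT := Pool.Agent.H79.ET.dat Pool.Agent.H79.ET.brk mSEG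
theorem mPNT : T_PNT := Pool.Agent.H24.ET.pnt
theorem mPTF : T_PTF := Pool.Agent.H70.ET.ptf mPNT
theorem mPTG : T_PTG := ptg mPNT Pool.Agent.H23.ET.ser Pool.Agent.H29.ET.gct Pool.Agent.H29.ET.gsp
theorem mDSJ : T_DSJ := Pool.Agent.H54.ET.dsj mPNT Pool.Agent.H29.ET.gct
theorem mFCO : T_FCO := Pool.Agent.H6.ET.fco mPNT
theorem mSUM : T_SUM := Pool.Agent.H80.ET.sum mPNT Pool.Agent.H29.ET.gct mDSJ
theorem mDIA : T_DIA := Pool.Agent.H51.ET.dia mPNT
theorem mNGT : T_NGT := ngt mDAT mPTF mPTG mDSJ mFCO mSUM mDIA Pool.Agent.H23.ET.cri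
theorem mALL : T_ALL := Pool.Agent.H23.ET.all mNGT

end Pool.Agent.H93.ET
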